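import Pool.Agent.W642.RS.Stms

set_option autoImplicit false

/-!
# RS-COUNT: permutations putting disjoint pairs to neighbouring places
-/

namespace Pool.Agent.W803.RS

open Finset Pool.Agent.W642.RS

section general

variable {ι α : Type*} [Fintype ι] [Fintype α] [DecidableEq α] [DecidableEq ι]

theorem exists_perm (a a' : ι ↪ α) : ∃ π : Equiv.Perm α, ∀ x, π (a x) = a' x := by
  classical
  let e : {x // x ∈ Set.range a} ≃ {x // x ∈ Set.range a'} :=
    (Equiv.ofInjective a a.injective).symm.trans (Equiv.ofInjective a' a'.injective)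
  refine ⟨e.extendSubtype, fun x => ?_⟩
  have hx : a x ∈ Set.range a := ⟨x, rfl⟩
  rw [Equiv.extendSubtype_apply_of_mem e _ hx]
  have h1 : (Equiv.ofInjective a a.injective).symm ⟨a x, hx⟩ = x :=
    (Equiv.ofInjective a a.injective).symm_apply_eq.2 rfl
  show ((Equiv.ofInjective a' a'.injective) ((Equiv.ofInjective a a.injective).symm ⟨a x, hx⟩) : α) = a' x
  rw [h1]
  rfl

/-- the permutations which carry `P` to `a` -/
def fib (P a : ι ↪ α) : Finset (Equiv.Perm α) := univ.filter fun h => P.trans h.toEmbedding = a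

theorem mem_fib {P a : ι ↪ α} {h : Equiv.Perm α} : h ∈ fib P a ↔ ∀ x, h (P x) = a x := by
  unfold fib
  rw [mem_filter]
  simp only [mem_univ, true_and]
  constructor
  · rintro rfl x
    rfl
  · intro h1
    ext x
    exact h1 x

theorem card_fib_le (P a a' : ι ↪ α) : (fib P a).card ≤ (fib P a').card := by
  obtain ⟨π, hπ⟩ := exists_perm a a'
  refine Finset.card_le_card_of_injOn (fun h => π * h) ?_ ?_
  · intro h hh
    rw [mem_coe, mem_fib] at hh
    rw [mem_coe, mem_fib]
    intro x
    rw [Equiv.Perm.mul_apply, hh, hπ]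
  · intro h _ h' _ hhh
    exact mul_left_cancel hhh

theorem card_fib (P a a' : ι ↪ α) : (fib P a).card = (fib P a').card :=
  le_antisymm (card_fib_le P a a') (card_fib_le P a' a)

theorem card_perm (P : ι ↪ α) :
    (fib P P).card * Fintype.card (ι ↪ α) = (Fintype.card α).factorial := by
  have key : (univ : Finset (Equiv.Perm α)).card = ∑ a : ι ↪ α, (fib P a).card :=
    Finset.card_eq_sum_card_fiberwise (f := fun h : Equiv.Perm α => P.trans h.toEmbedding)
      (t := (univ : Finset (ι ↪ α))) (fun _ _ => mem_coe.2 (mem_univ _))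
  rw [Finset.sum_congr rfl (fun a _ => (card_fib P a P : (fib P a).card = _)), Finset.sum_const,
    Finset.card_univ, Finset.card_univ, smul_eq_mul, Fintype.card_perm] at key
  rw [key, mul_comm]

/-- permutations `h` such that `h ∘ P` satisfies a property -/
theorem card_good (P : ι ↪ α) (Good : (ι ↪ α) → Prop) [DecidablePred Good] :
    (univ.filter fun h : Equiv.Perm α => Good (P.trans h.toEmbedding)).card * Fintype.card (ι ↪ α) =
      (univ.filter Good).card * (Fintype.card α).factorial := by
  rw [← card_perm P, ← mul_assoc]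
  congr 1
  rw [Finset.card_eq_sum_card_fiberwise (f := fun h : Equiv.Perm α => P.trans h.toEmbedding)
    (t := univ.filter Good) (by
      intro h hh
      rw [mem_coe, mem_filter] at hh
      exact mem_coe.2 (mem_filter.2 ⟨mem_univ _, hh.2⟩))]
  have h1 : ∀ a ∈ univ.filter Good, ((univ.filter fun h : Equiv.Perm α => Good (P.trans h.toEmbedding)).filter
      (fun h => P.trans h.toEmbedding = a)).card = (fib P P).card := by
    intro a ha
    rw [mem_filter] at ha
    rw [← card_fib P a P]
    congr 1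
    ext h
    unfold fib
    simp only [mem_filter, mem_univ, true_and]
    constructor
    · exact fun h => h.2
    · intro h
      exact ⟨by rw [h]; exact ha.2, h⟩
  rw [Finset.sum_congr rfl h1, Finset.sum_const, smul_eq_mul]

end general

/-- embeddings with paired values -/
def GoodE (n j : ℕ) (a : Fin j ⊕ Fin j ↪ Fin n) : Prop :=
  ∀ i, (a (Sum.inl i) : ℕ) / 2 = (a (Sum.inr i) : ℕ) / 2

instance (n j : ℕ) : DecidablePred (GoodE n j) := fun a => by unfold GoodE; infer_instance

/-- the number with half `e` and parity `b` -/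
def vl (e : ℕ) (b : Bool) : ℕ := 2 * e + (if b then 1 else 0)

theorem vl_inj {e e' : ℕ} {b b' : Bool} (h : vl e b = vl e' b') : e = e' ∧ b = b' := by
  unfold vl at h
  cases b <;> cases b' <;> simp_all <;> omega

theorem vl_lt {e n : ℕ} (b : Bool) (h : e < n / 2) : vl e b < n := by
  unfold vl
  split_ifs <;> omega

theorem vl_half (e : ℕ) (b : Bool) : vl e b / 2 = e := by
  unfold vl
  split_ifs <;> omega

theorem vl_par (e : ℕ) (b : Bool) : decide (vl e b % 2 = 1) = b := by
  unfold vl
  cases b <;> simp <;> omega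

theorem vl_eq (a : ℕ) : vl (a / 2) (decide (a % 2 = 1)) = a := by
  unfold vl
  simp only [decide_eq_true_eq]
  split_ifs <;> omega

theorem vl_eq' {a a' : ℕ} (h : a / 2 = a' / 2) (hne : a ≠ a') : vl (a / 2) (!decide (a % 2 = 1)) = a' := by
  unfold vl
  simp only [Bool.not_eq_true', decide_eq_false_iff_not]
  split_ifs <;> omega

theorem good_ne {n j : ℕ} (a : Fin j ⊕ Fin j ↪ Fin n) {x y : Fin j ⊕ Fin j} (h : x ≠ y) :
    (a x : ℕ) ≠ (a y : ℕ) := fun h' => h (a.injective (Fin.ext h'))

theorem good_lt {n j : ℕ} (a : Fin j ⊕ Fin j ↪ Fin n) (ha : GoodE n j a) (i : Fin j) :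
    (a (Sum.inl i) : ℕ) / 2 < n / 2 := by
  have h1 := ha i
  have h2 := good_ne a (show (Sum.inl i : Fin j ⊕ Fin j) ≠ Sum.inr i by simp)
  have h3 := (a (Sum.inl i)).2
  have h4 := (a (Sum.inr i)).2
  omega

theorem good_inj {n j : ℕ} (a : Fin j ⊕ Fin j ↪ Fin n) (ha : GoodE n j a) (i i' : Fin j)
    (h0 : (a (Sum.inl i) : ℕ) / 2 = (a (Sum.inl i') : ℕ) / 2) : i = i' := by
  by_contra hne
  have h1 := ha i
  have h2 := good_ne a (show (Sum.inl i : Fin j ⊕ Fin j) ≠ Sum.inr i by simp)
  have h3 := good_ne a (show (Sum.inl i : Fin j ⊕ Fin j) ≠ Sum.inl i' by simpa using hne)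
  have h4 := good_ne a (show (Sum.inr i : Fin j ⊕ Fin j) ≠ Sum.inl i' by simp)
  omega

/-- the pairs of values are determined by the halves and the parities -/
def toE (n j : ℕ) (a : {a : Fin j ⊕ Fin j ↪ Fin n // GoodE n j a}) :
    (Fin j → Bool) × (Fin j ↪ Fin (n / 2)) :=
  (fun i => decide ((a.1 (Sum.inl i) : ℕ) % 2 = 1),
    ⟨fun i => ⟨(a.1 (Sum.inl i) : ℕ) / 2, good_lt a.1 a.2 i⟩, fun i i' h =>
      good_inj a.1 a.2 i i' (congrArg Fin.val h)⟩)

/-- the underlying function of the inverse -/
def invF (n j : ℕ) (q : (Fin j → Bool) × (Fin j ↪ Fin (n / 2))) : Fin j ⊕ Fin j → Fin n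
  | Sum.inl i => ⟨vl (q.2 i) (q.1 i), vl_lt _ (q.2 i).2⟩
  | Sum.inr i => ⟨vl (q.2 i) (!q.1 i), vl_lt _ (q.2 i).2⟩

theorem invF_inj (n j : ℕ) (q : (Fin j → Bool) × (Fin j ↪ Fin (n / 2))) :
    Function.Injective (invF n j q) := by
  rintro (i | i) (i' | i') h
  · have h1 := vl_inj (congrArg Fin.val h)
    rw [q.2.injective (Fin.ext h1.1)]
  · have h1 := vl_inj (congrArg Fin.val h)
    have h3 := q.2.injective (Fin.ext h1.1)
    subst h3
    exfalso
    revert h1
    cases q.1 i <;> simp
  · have h1 := vl_inj (congrArg Fin.val h)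
    have h3 := q.2.injective (Fin.ext h1.1)
    subst h3
    exfalso
    revert h1
    cases q.1 i <;> simp
  · have h1 := vl_inj (congrArg Fin.val h)
    rw [q.2.injective (Fin.ext h1.1)]

/-- the inverse -/
def ofE (n j : ℕ) (q : (Fin j → Bool) × (Fin j ↪ Fin (n / 2))) :
    {a : Fin j ⊕ Fin j ↪ Fin n // GoodE n j a} :=
  ⟨⟨invF n j q, invF_inj n j q⟩, fun i => by
    show vl (q.2 i) (q.1 i) / 2 = vl (q.2 i) (!q.1 i) / 2
    rw [vl_half, vl_half]⟩

/-- the pairs of values are determined by the halves and the parities -/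
def goodEquiv (n j : ℕ) : {a : Fin j ⊕ Fin j ↪ Fin n // GoodE n j a} ≃
    (Fin j → Bool) × (Fin j ↪ Fin (n / 2)) where
  toFun := toE n j
  invFun := ofE n j
  left_inv a := by
    apply Subtype.ext
    apply Function.Embedding.ext
    rintro (i | i)
    · apply Fin.ext
      exact vl_eq _
    · apply Fin.ext
      exact vl_eq' (a.2 i) (good_ne a.1 (by simp))
  right_inv q := by
    apply Prod.ext
    · funext i
      exact vl_par _ _
    · apply Function.Embedding.ext
      intro i
      apply Fin.ext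
      exact vl_half _ _

theorem card_goodE (n j : ℕ) : (univ.filter (GoodE n j)).card = 2 ^ j * (n / 2).descFactorial j := by
  rw [← Fintype.card_subtype, Fintype.card_congr (goodEquiv n j), Fintype.card_prod,
    Fintype.card_embedding_eq]
  simp

theorem count : S_count := by
  intro n j p q hinj
  have h := card_good (⟨Sum.elim p q, hinj⟩ : Fin j ⊕ Fin j ↪ Fin n) (GoodE n j)
  rw [card_goodE, Fintype.card_embedding_eq, Fintype.card_fin, Fintype.card_sum, Fintype.card_fin,
    ← two_mul] at h
  exact h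

end Pool.Agent.W803.RS
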